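import Pool.Agent.GK.G.G3A

/-!
# GK/G-G3: twice the elements of level `i` (paper G3)

`g3_quad`: the relation of a biquadratic extension for two good characters `a`, `b` of `K'`; if one of `a`, `b`, `a b` is
trivial on `K`, then `K` is its kernel, otherwise all four subgroups have index `2` in a subgroup of level `i + 1`.
-/

namespace Pool.Agent.GK

open Pool.Agent.GJ MulAction Pool.Agent.H73.DU Pool.Agent.H73.AL Pool.Agent.LD Pool.Agent.TS

private theorem G3_eq {K K' : Subgroup GQ} {χ : GQ → ℤˣ} (hχ : Mulp K' χ) (hn : ¬ Tr K' χ)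
    (hle : K ≤ K') (hi : K.relIndex K' = 2) (ht : Tr K χ) : K = kr K' χ := by
  have h1 : K ≤ kr K' χ := fun x hx => (mem_kr hχ).2 ⟨hle hx, ht x hx⟩
  have h2 := Subgroup.relIndex_mul_relIndex K (kr K' χ) K' h1 (kr_le K' χ)
  rw [kr_index hχ hn, hi] at h2
  have h3 : K.relIndex (kr K' χ) = 1 := by omega
  exact le_antisymm h1 (Subgroup.relIndex_eq_one.1 h3)

/-- the relative index from the indices -/
private theorem G3_rel {L M K' : Subgroup GQ} (hLM : L ≤ M) {k : ℕ} (h0 : K'.index ≠ 0) (hk : 0 < k)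
    (hL : L.index = 2 * (k * K'.index)) (hM : M.index = k * K'.index) : L.relIndex M = 2 := by
  have h1 := Subgroup.relIndex_mul_index hLM
  rw [hL, hM] at h1
  exact Nat.eq_of_mul_eq_mul_right (Nat.mul_pos hk (Nat.pos_of_ne_zero h0)) h1

theorem g3_quad {V T : Finset ℕ} (hTp : ∀ p ∈ T, p.Prime) (h2 : 2 ∈ T) {i n B : ℕ}
    (hV : ∃ P : Pl, Pin V T P) {K K' : Subgroup GQ} (hK' : Ci V T i K')
    (hKo : IsOpen (K : Set GQ)) (hle : K ≤ K') (hi : K.relIndex K' = 2)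
    (hn : n ∣ 2 * K.index) (hB : 4 * K.index ≤ B) : (2 : ℤ) • pc K ∈ EY V T (i + 1) n B := by
  obtain ⟨a, b, ha, hb, hab, va, vb, vab, -, -⟩ := exists_good hTp h2 hK'
  obtain ⟨P, hP⟩ := id hV
  have na := not_tr (va P hP)
  have nb := not_tr (vb P hP)
  have nab := not_tr (vab P hP)
  have key : ∀ χ : GQ → ℤˣ, GT V T i K' χ → ¬ Tr K' χ → Tr K χ →
      (2 : ℤ) • pc K ∈ EY V T (i + 1) n B := by
    intro χ h1 h3 h4
    refine two_pc hTp h2 hV ?_ hn hB
    rw [G3_eq h1.chr.1 h3 hle hi h4]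
    exact (good_iff hK' h1.chr).1 h1.good
  by_cases ta : Tr K a
  · exact key a ha na ta
  by_cases tb : Tr K b
  · exact key b hb nb tb
  by_cases tab : Tr K (a * b)
  · exact key (a * b) hab nab tab
  have h0 : K'.index ≠ 0 := by
    have := fin_open hK'.op
    have : K'.FiniteIndex := Subgroup.finiteIndex_of_finite_quotient
    exact Subgroup.FiniteIndex.index_ne_zero
  have hKi : K.index = 2 * K'.index := by
    rw [← Subgroup.relIndex_mul_index hle, hi]
  have hT : ∀ χ : GQ → ℤˣ, GT V T i K' χ → TTr T K χ :=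
    fun χ h1 Q hQ x hx hxK => h1.ttr Q hQ x hx (hle hxK)
  obtain ⟨⟨-, hidx⟩, hU⟩ := v4_idx hKo (ha.chr.mono hle hKo) (hb.chr.mono hle hKo) ta tb tab
    (hT a ha) (hT b hb)
  obtain ⟨⟨-, hidx'⟩, -⟩ := v4_idx hK'.op ha.chr hb.chr na nb nab ha.ttr hb.ttr
  have hq : ∀ χ : GQ → ℤˣ, GT V T i K' χ → ¬ Tr K' χ → ¬ Tr K χ →
      pc (kr K χ) ∈ EY V T (i + 1) n B := by
    intro χ h1 h3 h4
    have h5 : kr K χ ≤ kr K' χ := by
      rw [kr_mono h1.chr.1 hle]
      exact inf_le_right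
    have h6 := kr_index' (h1.chr.1.mono hle) h4
    have h7 := kr_index' h1.chr.1 h3
    refine quad_mem ((good_iff hK' h1.chr).1 h1.good) (h1.chr.mono hle hKo).2 h5
      (G3_rel h5 h0 two_pos ?_ h7) ?_ ?_
    · rw [h6, hKi]
    · rw [h6]
      exact hn
    · rw [h6]
      omega
  refine mem_congr hU (AddSubgroup.sub_mem _ (AddSubgroup.add_mem _ (AddSubgroup.add_mem _
    (hq a ha na ta) (hq b hb nb tb)) (hq (a * b) hab nab tab)) ?_)
  have h5 : kr K a ⊓ kr K b ≤ kr K' a ⊓ kr K' b := by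
    rw [kr_mono ha.chr.1 hle, kr_mono hb.chr.1 hle]
    exact inf_le_inf inf_le_right inf_le_right
  have h6 : Ci V T (i + 1) (kr K' a ⊓ kr K' b) := by
    refine Ci.mono ((good_iff hK' ha.chr).1 ha.good) inf_le_left ?_
    rw [Subgroup.coe_inf]
    exact ha.chr.2.inter hb.chr.2
  refine quad_mem h6 ?_ h5 (G3_rel h5 h0 (by norm_num : 0 < 4) ?_ hidx') ?_ ?_
  · rw [Subgroup.coe_inf]
    exact (ha.chr.mono hle hKo).2.inter (hb.chr.mono hle hKo).2
  · rw [hidx, hKi]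
    ring
  · rw [hidx]
    have e : 4 * K.index = 2 * (2 * K.index) := by ring
    rw [e]
    exact hn.mul_left 2
  · rw [hidx]
    exact hB

theorem g3 {V T : Finset ℕ} (hTp : ∀ p ∈ T, p.Prime) (h2 : 2 ∈ T) {i n B m c : ℕ}
    (hV : ∃ P : Pl, Pin V T P) {f : Subgroup GQ → ℤ} (hf : f ∈ ES V T i m c) (hn : n ∣ 2 * m)
    (hB : 4 * c ≤ B) : (2 : ℤ) • f ∈ EY V T (i + 1) n B := by
  unfold ES at hf
  induction hf using AddSubgroup.closure_induction with
  | mem x hx =>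
    rcases hx with ⟨K, hK, hm, hc, rfl⟩ | ⟨K, hK, hm, hc, rfl⟩ | hx
    · have hn' : n ∣ 2 * K.index := hn.trans (Nat.mul_dvd_mul_left 2 hm)
      have hB' : 4 * K.index ≤ B := (Nat.mul_le_mul_left 4 hc).trans hB
      obtain ⟨h1, h3 | h3 | ⟨K', h3, h4, h5⟩⟩ := hK
      · exact two_pc hTp h2 hV h3 hn' hB'
      · exact g3_tr hTp h2 hV h1 h3 hn' hB'
      · exact g3_quad hTp h2 hV h3 h1.op h4 h5 hn' hB'
    · exact g3_four hTp h2 hV hK (hn.trans (Nat.mul_dvd_mul_left 2 hm))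
        ((Nat.mul_le_mul_left 4 hc).trans hB)
    · exact mem_ZT hx.two
  | zero =>
    rw [smul_zero]
    exact AddSubgroup.zero_mem _
  | add x y _ _ hx hy =>
    rw [smul_add]
    exact AddSubgroup.add_mem _ hx hy
  | neg x _ hx =>
    rw [smul_neg]
    exact AddSubgroup.neg_mem _ hx

end Pool.Agent.GK
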