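import Pool.Agent.GK.G.G2
import Pool.Agent.GK.G.G3
import Pool.Agent.GK.G.G5

/-!
# GK/G-Bad: bad quadratic extensions are in `EY` (paper G)

`hA` is theorem ALG of level `i` with the bound `c`.  The bound of the result only depends on `c`, `i` (through `c`) and the index.
-/

namespace Pool.Agent.GK

open Pool.Agent.GJ MulAction Pool.Agent.H73.DU Pool.Agent.H73.AL Pool.Agent.LD Pool.Agent.TS

/-- the bound of `bad_tt` -/
def bT (c : ℕ → ℕ) (k : ℕ) : ℕ := bE (k * k).factorial + 4 * c k + 4 * k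

theorem bad_tt' {V T : Finset ℕ} (hTp : ∀ p ∈ T, p.Prime) (h2 : 2 ∈ T) (hV : ∃ P : Pl, Pin V T P)
    {i : ℕ} {c : ℕ → ℕ} (hA : ∀ H : Subgroup GQ, Ci V T i H → pc H ∈ ES V T i H.index (c H.index))
    {H : Subgroup GQ} (hH : Ci V T i H) {χ : GQ → ℤˣ} (hχ : GT V T i H χ) (n B : ℕ)
    (hn : n ∣ 2 * H.index) (hB : bT c H.index ≤ B) : pq H χ ∈ EY V T (i + 1) n B := by
  obtain ⟨P, hP⟩ := hV
  have hV : ∃ P : Pl, Pin V T P := ⟨P, hP⟩
  have hb1 : bE (H.index * H.index).factorial ≤ B := by unfold bT at hB; omega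
  have hb2 : 4 * c H.index ≤ B := by unfold bT at hB; omega
  have hb3 : 4 * H.index ≤ B := by unfold bT at hB; omega
  obtain ⟨a, b, ha, hb, hab, va, vb, vab, -, -⟩ := exists_good hTp h2 hH
  have na := not_tr (va P hP)
  have nb := not_tr (vb P hP)
  have nab := not_tr (vab P hP)
  have h2H : (2 : ℤ) • pc H ∈ EY V T (i + 1) n B := g3 hTp h2 hV (hA H hH) hn hb2
  obtain ⟨⟨g1, g2⟩, g4⟩ := v4_idx (T := T) hH.op ha.chr hb.chr na nb nab ha.ttr hb.ttr
  have hka : Ci V T (i + 1) (kr H a) := (good_iff hH ha.chr).1 ha.good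
  have hk4 : pc (kr H a ⊓ kr H b) ∈ EY V T (i + 1) n B := by
    refine quad_mem hka ?_ inf_le_left g1 ?_ ?_
    · rw [Subgroup.coe_inf]
      exact ha.chr.2.inter hb.chr.2
    · rw [g2]
      exact hn.trans ⟨2, by ring⟩
    · rw [g2]
      exact hb3
  have e1 : pq H a = pc (kr H a) := by unfold pq; rw [if_neg na]
  have e2 : pq H b = pc (kr H b) := by unfold pq; rw [if_neg nb]
  have e3 : pq H (a * b) = pc (kr H (a * b)) := by unfold pq; rw [if_neg nab]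
  have h3 : pq H a + pq H b + pq H (a * b) ∈ EY V T (i + 1) n B := by
    refine mem_congr (g := (2 : ℤ) • pc H + pc (kr H a ⊓ kr H b)) (fun U hU => ?_) (add_mem h2H hk4)
    have := g4 U hU
    rw [e1, e2, e3]
    simp only [Pi.add_apply, Pi.sub_apply] at this ⊢
    rw [this]
    ring
  have ka := g2c hTp h2 hV hH hχ ha hn hb1
  have kb := g2c hTp h2 hV hH hχ hb hn hb1
  have kab := g2c hTp h2 hV hH hχ hab hn hb1
  have h4 : pq H χ + pq H χ + pq H χ ∈ EY V T (i + 1) n B := by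
    have h5 := add_mem (add_mem (add_mem ka kb) kab) h3
    have h6 : pq H χ + pq H χ + pq H χ = pq H χ - pq H a + (pq H χ - pq H b) +
        (pq H χ - pq H (a * b)) + (pq H a + pq H b + pq H (a * b)) := by abel
    rw [h6]
    exact h5
  have h7 : (2 : ℤ) • pq H χ ∈ EY V T (i + 1) n B :=
    pq_two hTp h2 hV hH hχ le_rfl hH.op hn hb3
  have h8 : pq H χ = pq H χ + pq H χ + pq H χ - (2 : ℤ) • pq H χ := by
    rw [two_zsmul]
    abel
  rw [h8]
  exact sub_mem h4 h7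

theorem bad_tt (i : ℕ) (c : ℕ → ℕ) : ∃ b : ℕ → ℕ, ∀ {V T : Finset ℕ} (_ : ∀ p ∈ T, p.Prime)
    (_ : 2 ∈ T) (_ : ∃ P : Pl, Pin V T P)
    (_ : ∀ H : Subgroup GQ, Ci V T i H → pc H ∈ ES V T i H.index (c H.index))
    {H : Subgroup GQ} (_ : Ci V T i H) {χ : GQ → ℤˣ} (_ : GT V T i H χ) (n B : ℕ)
    (_ : n ∣ 2 * H.index) (_ : b H.index ≤ B), pq H χ ∈ EY V T (i + 1) n B :=
  ⟨bT c, fun {V T} hTp h2 hV hA {H} hH {χ} hχ n B hn hB => bad_tt' hTp h2 hV hA hH hχ n B hn hB⟩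

theorem bad (i : ℕ) (c : ℕ → ℕ) : ∃ b : ℕ → ℕ, ∀ {V T : Finset ℕ} (_ : ∀ p ∈ T, p.Prime)
    (_ : 2 ∈ T) (_ : ∃ P : Pl, Pin V T P)
    (_ : ∀ H : Subgroup GQ, Ci V T i H → pc H ∈ ES V T i H.index (c H.index))
    {L H : Subgroup GQ} (_ : Ci V T (i + 1) L) (_ : IsOpen (H : Set GQ)) (_ : L ≤ H)
    (_ : L.relIndex H = 2) (n B : ℕ)
    (_ : n ∣ L.index) (_ : b L.index ≤ B), pc L ∈ EY V T (i + 1) n B := by
  refine ⟨fun k => bT c (k / 2) + 4 * k, ?_⟩
  intro V T hTp h2 hV hA L H hL hH hle hi n B hn hB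
  have hidx : L.index = 2 * H.index := by
    rw [← Subgroup.relIndex_mul_index hle, hi]
  change bT c (L.index / 2) + 4 * L.index ≤ B at hB
  have hb1 : bT c H.index ≤ B := by
    have : L.index / 2 = H.index := by omega
    rw [this] at hB
    omega
  have hb2 : 4 * L.index ≤ B := by omega
  rcases g5 hTp h2 hV hL hH hle hi hn hb2 with h | ⟨ν, hν, h⟩
  · exact quad_mem h hL.op hle hi hn (by omega)
  · exact h (bad_tt' hTp h2 hV hA (up_ci hL hH hle hi) hν n B (hidx ▸ hn) hb1)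

end Pool.Agent.GK
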