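import Pool.Agent.GK.D.D2
import Pool.Agent.GK.G.UpR

/-!
# GK/G-G1: the differences of a totally real field vanish (paper G1)

PLAN.  If `P` is not critical for `H`: `d1` (a critical `Q` is not equivalent to `P`: `crit_congr`; so `h.eq`).  If `P` is critical: `χ`, `χ'` are nontrivial at `P` (`h.l.good`);
`exists_pair` gives `η`, `η'` (trivial on the complex conjugations) with the same values at `P`; `pq H η`, `pq H η'` are in `EY` (`pq_tr`, `not_tr`), and `d2` compares.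
-/

namespace Pool.Agent.GK

open Pool.Agent.GJ MulAction Pool.Agent.H73.DU Pool.Agent.H73.AL Pool.Agent.LD Pool.Agent.TS

theorem g_nc {V T : Finset ℕ} (hTp : ∀ p ∈ T, p.Prime) (h2 : 2 ∈ T) {i n B : ℕ}
    (hV : ∃ P : Pl, Pin V T P) {H : Subgroup GQ} (hH : Ci V T i H) {P : Pl}
    (hc : ¬ Crit i H P) {χ χ' : GQ → ℤˣ} (h : Pair V T i H P χ χ') (hn : n ∣ 2 * H.index)
    (hB : 16 * H.index ≤ B) : pq H χ - pq H χ' ∈ EY V T (i + 1) n B :=
  d1 hTp h2 hV hH h.l h.r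
    (fun Q hQ hcQ => h.eq Q hQ hcQ fun hp => hc ((crit_congr hp).2 hcQ)) hn hB

theorem g1 {V T : Finset ℕ} (hTp : ∀ p ∈ T, p.Prime) (h2 : 2 ∈ T) {i n B : ℕ}
    (hV : ∃ P : Pl, Pin V T P) {H : Subgroup GQ} (hH : Ci V T i H) (hR : TR H) {P : Pl}
    (hP : Pin V T P) {χ χ' : GQ → ℤˣ} (h : Pair V T i H P χ χ') (hn : n ∣ 2 * H.index)
    (hB : 16 * H.index ≤ B) : pq H χ - pq H χ' ∈ EY V T (i + 1) n B := by
  by_cases hc : Crit i H P
  swap
  · exact g_nc hTp h2 hV hH hc h hn hB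
  obtain ⟨η, η', hp, e, e', -, -, c, c'⟩ := exists_pair hTp h2 hH hP h.l.chr h.r.chr
    (h.l.good P hP hc) (h.r.good P hP hc)
  have k1 := d2 hTp h2 hV hH hP h hp (EqAt.mul e e').symm hn hB
  have k2 := pq_tr hH hR hp.l (not_tr (hp.l.good P hP hc)) c hn (by omega : 2 * H.index ≤ B)
  have k3 := pq_tr hH hR hp.r (not_tr (hp.r.good P hP hc)) c' hn (by omega : 2 * H.index ≤ B)
  have k4 := AddSubgroup.add_mem _ k1 (AddSubgroup.sub_mem _ k2 k3)
  rwa [sub_add_cancel] at k4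

end Pool.Agent.GK
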