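import Pool.Agent.GK.G.G1
import Pool.Agent.GJ.G.Mat
import Pool.Agent.GK.F.Thm
import Pool.Agent.GJ.H.Loc

/-!
# GK/G-G2: all differences vanish (paper G2)

`g2`: the differences of `H` at the place `P` are compared with those of a totally real field which is locally isomorphic to the field of `H`.
`g2c`: `chain` (D4) with the representatives of the critical places and `f = 0`.
-/

namespace Pool.Agent.GK

open Pool.Agent.GJ MulAction Pool.Agent.H73.DU Pool.Agent.H73.AL Pool.Agent.LD Pool.Agent.TS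

theorem le_bE (k : ℕ) (hk : 0 < k) : 16 * k ≤ bE (k * k).factorial := by
  have h1 : k ≤ (k * k).factorial := by
    have h2 : k ≤ k * k := Nat.le_mul_of_pos_left k hk
    exact h2.trans (Nat.self_le_factorial _)
  generalize (k * k).factorial = m at h1
  unfold bE
  have h3 : m ≤ (8 * m).factorial := (by omega : m ≤ 8 * m).trans (Nat.self_le_factorial _)
  have h4 : (8 * m).factorial ≤ (8 * m).factorial * 2 ^ (8 * m).factorial :=
    Nat.le_mul_of_pos_right _ (by positivity)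
  exact Nat.mul_le_mul_left _ (h1.trans (h3.trans h4))

private theorem G2_index {G : Type} [Group G] (b : G) (J : Subgroup G) :
    (cj b J).index = J.index :=
  Subgroup.index_map_equiv J (MulAut.conj b⁻¹)

theorem g2 {V T : Finset ℕ} (hTp : ∀ p ∈ T, p.Prime) (h2 : 2 ∈ T) {i n B : ℕ}
    (hV : ∃ P : Pl, Pin V T P) {H : Subgroup GQ} (hH : Ci V T i H) {P : Pl}
    (hP : Pin V T P) {χ χ' : GQ → ℤˣ} (h : Pair V T i H P χ χ') (hn : n ∣ 2 * H.index)
    (hB : bE (H.index * H.index).factorial ≤ B) : pq H χ - pq H χ' ∈ EY V T (i + 1) n B := by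
  have hfin := fin_open hH.1
  have hpos : 0 < H.index := Nat.pos_of_ne_zero (Subgroup.index_ne_zero_of_finite)
  have hB' : 16 * H.index ≤ B := (le_bE _ hpos).trans hB
  by_cases hc : Crit i H P
  swap
  · exact g_nc hTp h2 hV hH hc h hn hB'
  obtain ⟨J, hJo, hJR, hJi, hJm⟩ := exists_tr (V := V) (T := T) hH.1
  have hJ : Ci V T i J := ci_of_marks hH hJo fun Q hQ U hU =>
    hJm Q (Finset.mem_union_left _ hQ.1) U hU
  obtain ⟨y, hy⟩ := exists_same hH.1 hJo (P := P) fun U hU =>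
    hJm P (Finset.mem_union_left _ hP.1) U hU
  have hK : Ci V T i (cj y J) := hJ.cj y
  have hKR : TR (cj y J) := tr_cj hJR y
  have hKi : (cj y J).index = H.index := (G2_index y J).trans hJi
  generalize cj y J = K at hy hK hKR hKi
  obtain ⟨ω0, h1, h3, h4⟩ := match_chr h2 hH.1 hK.1 hP hy.symm h.l.chr (h.l.good P hP hc)
  obtain ⟨ω0', h1', h3', h4'⟩ := match_chr h2 hH.1 hK.1 hP hy.symm h.r.chr (h.r.good P hP hc)
  obtain ⟨ω, ω', hω, e1, e2, -, -, -, -⟩ := exists_pair hTp h2 hK hP h1 h1' h3 h3'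
  have hm := corF hTp h2 hV hH hK hP hy.symm h hω (fun x hx hxH => by
    have hxK : x ∈ K := (hy.ge (Subgroup.mem_inf.2 ⟨hx, hxH⟩)).2
    rw [Pi.mul_apply, Pi.mul_apply, h4 x hx hxH, h4' x hx hxH, e1 x hx hxK, e2 x hx hxK]) hn
    (by rw [hKi]; exact hn) (B := B) (by rw [hKi]; exact hB)
  have hg := g1 hTp h2 hV hK hKR hP hω (n := n) (B := B) (by rw [hKi]; exact hn)
    (by rw [hKi]; exact hB')
  have h5 := AddSubgroup.add_mem _ hm hg
  have e : (pq H χ - pq H χ') - (pq K ω - pq K ω') + (pq K ω - pq K ω') =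
      pq H χ - pq H χ' := by abel
  rwa [e] at h5

theorem g2c {V T : Finset ℕ} (hTp : ∀ p ∈ T, p.Prime) (h2 : 2 ∈ T) {i n B : ℕ}
    (hV : ∃ P : Pl, Pin V T P) {H : Subgroup GQ} (hH : Ci V T i H) {χ χ' : GQ → ℤˣ}
    (h : GT V T i H χ) (h' : GT V T i H χ') (hn : n ∣ 2 * H.index)
    (hB : bE (H.index * H.index).factorial ≤ B) : pq H χ - pq H χ' ∈ EY V T (i + 1) n B := by
  have hfin := fin_open hH.1
  have hpos : 0 < H.index := Nat.pos_of_ne_zero (Subgroup.index_ne_zero_of_finite)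
  have hB' : 16 * H.index ≤ B := (le_bE _ hpos).trans hB
  obtain ⟨ι, hι, P, h1, h3, h4⟩ := exists_reps V T hH.1 (Crit i H)
  have h5 := chain hTp h2 hV hH h h' P (fun k => (h1 k).1) h3
    (fun Q hQ hc => Or.inl (h4 Q hQ hc)) (fun _ => 0)
    (fun k η η' hp _ => by
      rw [sub_zero]
      exact g2 hTp h2 hV hH (h1 k).1 hp hn hB) hn hB'
  rwa [Finset.sum_const_zero, sub_zero] at h5

end Pool.Agent.GK
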