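import Pool.Agent.GK.D.Mem
import Pool.Agent.GK.G.UpR

/-!
# GK/G-G3A: twice the elements of level `i`, first part (paper G3)

The relation of a biquadratic extension for two very good characters: twice an element of level `i` is a sum of elements of level `i + 1`
up to a factor `2`, or, for totally real subgroups, on the nose.
-/

namespace Pool.Agent.GK

open Pool.Agent.GJ MulAction Pool.Agent.H73.DU Pool.Agent.H73.AL Pool.Agent.LD Pool.Agent.TS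

/-- the relation with its indices -/
theorem v4_idx {T : Finset ℕ} {K : Subgroup GQ} (hK : IsOpen (K : Set GQ)) {a b : GQ → ℤˣ}
    (ha : IsChr K a) (hb : IsChr K b) (ha1 : ¬ Tr K a) (hb1 : ¬ Tr K b) (hab : ¬ Tr K (a * b))
    (hat : TTr T K a) (hbt : TTr T K b) :
    ((kr K a ⊓ kr K b).relIndex (kr K a) = 2 ∧ (kr K a ⊓ kr K b).index = 4 * K.index) ∧
    ∀ U ∈ famT T, ((2 : ℤ) • pc K) U =
      (pc (kr K a) + pc (kr K b) + pc (kr K (a * b)) - pc (kr K a ⊓ kr K b)) U := by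
  refine ⟨kr_inf_index ha.1 hb.1 ha1 hb1 hab, fun U hU => ?_⟩
  have h1 := v4 hK ha hb ha1 hb1 hab hat hbt U hU
  rw [Pi.smul_apply, Pi.sub_apply, Pi.add_apply, Pi.add_apply, h1, smul_eq_mul]
  ring

/-- the characters used below -/
private theorem h8g3a_chr {V T : Finset ℕ} (hTp : ∀ p ∈ T, p.Prime) (h2 : 2 ∈ T) {i : ℕ}
    (hV : ∃ P : Pl, Pin V T P) {K : Subgroup GQ} (hK : Ci V T i K) :
    ∃ a b : GQ → ℤˣ, IsChr K a ∧ IsChr K b ∧ Ci V T (i + 1) (kr K a) ∧ Ci V T (i + 1) (kr K b) ∧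
      Ci V T (i + 1) (kr K (a * b)) ∧ Ci V T (i + 1) (kr K a ⊓ kr K b) ∧
      (kr K a).index = 2 * K.index ∧ (kr K b).index = 2 * K.index ∧
      (kr K (a * b)).index = 2 * K.index ∧ (kr K a ⊓ kr K b).index = 4 * K.index ∧
      (∀ c : GQ, IsCc c → c ∈ K → a c = 1) ∧ (∀ c : GQ, IsCc c → c ∈ K → b c = 1) ∧
      ∀ U ∈ famT T, ((2 : ℤ) • pc K) U =
        (pc (kr K a) + pc (kr K b) + pc (kr K (a * b)) - pc (kr K a ⊓ kr K b)) U := by
  obtain ⟨P, hP⟩ := hV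
  obtain ⟨a, b, ha, hb, hab, va, vb, vab, ca, cb⟩ := exists_good hTp h2 hK
  have na := not_tr (va P hP)
  have nb := not_tr (vb P hP)
  have nab := not_tr (vab P hP)
  have ka := (good_iff hK ha.chr).1 ha.good
  have kb := (good_iff hK hb.chr).1 hb.good
  have kab := (good_iff hK hab.chr).1 hab.good
  have ko : IsOpen ((kr K a ⊓ kr K b : Subgroup GQ) : Set GQ) := by
    rw [Subgroup.coe_inf]
    exact ha.chr.2.inter hb.chr.2
  obtain ⟨⟨-, h4⟩, h5⟩ := v4_idx hK.1 ha.chr hb.chr na nb nab ha.ttr hb.ttr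
  exact ⟨a, b, ha.chr, hb.chr, ka, kb, kab, ka.mono inf_le_left ko, kr_index' ha.chr.1 na,
    kr_index' hb.chr.1 nb, kr_index' hab.chr.1 nab, h4, ca, cb, h5⟩

theorem g3_four {V T : Finset ℕ} (hTp : ∀ p ∈ T, p.Prime) (h2 : 2 ∈ T) {i n B : ℕ}
    (hV : ∃ P : Pl, Pin V T P) {K : Subgroup GQ} (hK : Ci V T i K) (hn : n ∣ 2 * K.index)
    (hB : 4 * K.index ≤ B) : (2 : ℤ) • ((2 : ℤ) • pc K) ∈ EY V T (i + 1) n B := by
  obtain ⟨a, b, -, -, ka, kb, kab, k4, ia, ib, iab, i4, -, -, h5⟩ := h8g3a_chr hTp h2 hV hK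
  have hB2 : 2 * K.index ≤ B := by omega
  have hn4 : n ∣ 4 * K.index := by
    have h6 : 4 * K.index = 2 * (2 * K.index) := by ring
    rw [h6]
    exact hn.mul_left 2
  have e1 : (2 : ℤ) • pc (kr K a) ∈ EY V T (i + 1) n B :=
    mem_two ka (by rw [ia]; exact hn) (by rw [ia]; exact hB2)
  have e2 : (2 : ℤ) • pc (kr K b) ∈ EY V T (i + 1) n B :=
    mem_two kb (by rw [ib]; exact hn) (by rw [ib]; exact hB2)
  have e3 : (2 : ℤ) • pc (kr K (a * b)) ∈ EY V T (i + 1) n B :=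
    mem_two kab (by rw [iab]; exact hn) (by rw [iab]; exact hB2)
  have e4 : (2 : ℤ) • pc (kr K a ⊓ kr K b) ∈ EY V T (i + 1) n B :=
    mem_two k4 (by rw [i4]; exact hn4) (by rw [i4]; exact hB)
  refine mem_congr (g := (2 : ℤ) • (pc (kr K a) + pc (kr K b) + pc (kr K (a * b)) -
    pc (kr K a ⊓ kr K b))) (fun U hU => ?_) ?_
  · exact congrArg (fun z : ℤ => (2 : ℤ) • z) (h5 U hU)
  · rw [smul_sub, smul_add, smul_add]
    exact AddSubgroup.sub_mem _ (AddSubgroup.add_mem _ (AddSubgroup.add_mem _ e1 e2) e3) e4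

theorem g3_tr {V T : Finset ℕ} (hTp : ∀ p ∈ T, p.Prime) (h2 : 2 ∈ T) {i n B : ℕ}
    (hV : ∃ P : Pl, Pin V T P) {K : Subgroup GQ} (hK : Ci V T i K) (hR : TR K)
    (hn : n ∣ 2 * K.index) (hB : 4 * K.index ≤ B) : (2 : ℤ) • pc K ∈ EY V T (i + 1) n B := by
  obtain ⟨a, b, ha, hb, ka, kb, kab, k4, ia, ib, iab, i4, ca, cb, h5⟩ := h8g3a_chr hTp h2 hV hK
  have hB2 : 2 * K.index ≤ B := by omega
  have hn4 : n ∣ 4 * K.index := by
    have h6 : 4 * K.index = 2 * (2 * K.index) := by ring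
    rw [h6]
    exact hn.mul_left 2
  have ra : TR (kr K a) := hR.mono ha.1 ca rfl
  have rb : TR (kr K b) := hR.mono hb.1 cb rfl
  have rab : TR (kr K (a * b)) := hR.mono (ha.1.mul hb.1) (fun c hc hcK => by
    rw [Pi.mul_apply, ca c hc hcK, cb c hc hcK, mul_one]) rfl
  have r4 : TR (kr K a ⊓ kr K b) := fun ι c h1 => Subgroup.mem_inf.2 ⟨ra ι c h1, rb ι c h1⟩
  have e1 : pc (kr K a) ∈ EY V T (i + 1) n B :=
    mem_Ey ⟨ka, Or.inr (Or.inl ra)⟩ (by rw [ia]; exact hn) (by rw [ia]; exact hB2)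
  have e2 : pc (kr K b) ∈ EY V T (i + 1) n B :=
    mem_Ey ⟨kb, Or.inr (Or.inl rb)⟩ (by rw [ib]; exact hn) (by rw [ib]; exact hB2)
  have e3 : pc (kr K (a * b)) ∈ EY V T (i + 1) n B :=
    mem_Ey ⟨kab, Or.inr (Or.inl rab)⟩ (by rw [iab]; exact hn) (by rw [iab]; exact hB2)
  have e4 : pc (kr K a ⊓ kr K b) ∈ EY V T (i + 1) n B :=
    mem_Ey ⟨k4, Or.inr (Or.inl r4)⟩ (by rw [i4]; exact hn4) (by rw [i4]; exact hB)
  exact mem_congr h5
    (AddSubgroup.sub_mem _ (AddSubgroup.add_mem _ (AddSubgroup.add_mem _ e1 e2) e3) e4)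

end Pool.Agent.GK
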